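import Pool.Agent.Lib.MP_cd8379_lc.Defs

/-!
Degrees of rational functions.
-/

namespace Pool.Agent.MP_cd8379_lc

open Polynomial

theorem deg_div_le {K : Type} [Field K] (P Q : K[X]) (hQ : Q ≠ 0) (d : ℕ)
    (hP : P.natDegree ≤ d) (hQd : Q.natDegree ≤ d) :
    deg (algebraMap K[X] (RatFunc K) P / algebraMap K[X] (RatFunc K) Q) ≤ d := by
  unfold deg
  refine max_le ?_ ?_
  · by_cases h : P = 0
    · rw [h, map_zero, zero_div, RatFunc.num_zero, natDegree_zero]
      exact Nat.zero_le _
    · exact (natDegree_le_of_dvd (RatFunc.num_div_dvd P hQ) h).trans hP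
  · refine (natDegree_le_of_dvd ?_ hQ).trans hQd
    exact (RatFunc.denom_dvd hQ).2 ⟨P, rfl⟩

theorem deg_add {K : Type} [Field K] (f g : RatFunc K) : deg (f + g) ≤ deg f + deg g := by
  have hf := RatFunc.num_div_denom f
  have hg := RatFunc.num_div_denom g
  have hf0 := RatFunc.denom_ne_zero f
  have hg0 := RatFunc.denom_ne_zero g
  have e : f + g = algebraMap K[X] (RatFunc K) (f.num * g.denom + f.denom * g.num) /
      algebraMap K[X] (RatFunc K) (f.denom * g.denom) := by
    conv_lhs => rw [← hf, ← hg]
    rw [map_mul, map_add, map_mul, map_mul, ← div_add_div]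
    · exact RatFunc.algebraMap_ne_zero hf0
    · exact RatFunc.algebraMap_ne_zero hg0
  have h1 : f.num.natDegree ≤ deg f := le_max_left _ _
  have h2 : f.denom.natDegree ≤ deg f := le_max_right _ _
  have h3 : g.num.natDegree ≤ deg g := le_max_left _ _
  have h4 : g.denom.natDegree ≤ deg g := le_max_right _ _
  rw [e]
  refine deg_div_le _ _ (mul_ne_zero hf0 hg0) _ ?_ ?_
  · refine (natDegree_add_le _ _).trans (max_le ?_ ?_)
    · exact natDegree_mul_le.trans (by omega)
    · exact natDegree_mul_le.trans (by omega)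
  · exact natDegree_mul_le.trans (by omega)

theorem deg_smul {K : Type} [Field K] (c : K) (f : RatFunc K) : deg (c • f) ≤ deg f := by
  have hf := RatFunc.num_div_denom f
  have hf0 := RatFunc.denom_ne_zero f
  have e : c • f = algebraMap K[X] (RatFunc K) (C c * f.num) /
      algebraMap K[X] (RatFunc K) f.denom := by
    conv_lhs => rw [← hf]
    rw [map_mul, mul_div_assoc, Algebra.smul_def]
    rfl
  rw [e]
  refine deg_div_le _ _ hf0 _ ?_ ?_
  · exact (natDegree_C_mul_le _ _).trans (le_max_left _ _)
  · exact le_max_right _ _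

theorem deg_zero {K : Type} [Field K] : deg (0 : RatFunc K) = 0 := by
  unfold deg
  simp

theorem deg_sum {K : Type} [Field K] {ι : Type} (s : Finset ι) (f : ι → RatFunc K) :
    deg (∑ i ∈ s, f i) ≤ ∑ i ∈ s, deg (f i) := by
  classical
  induction s using Finset.induction_on with
  | empty => simp [deg_zero]
  | insert a s ha ih =>
    rw [Finset.sum_insert ha, Finset.sum_insert ha]
    exact (deg_add _ _).trans (Nat.add_le_add_left ih _)

theorem deg_X_pow {K : Type} [Field K] (y : ℕ) : deg (RatFunc.X ^ y : RatFunc K) = y := by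
  have e : (RatFunc.X ^ y : RatFunc K) = algebraMap K[X] (RatFunc K) (X ^ y) := by
    rw [map_pow, RatFunc.algebraMap_X]
  unfold deg
  rw [e, RatFunc.num_algebraMap, RatFunc.denom_algebraMap, natDegree_X_pow, natDegree_one]
  simp

/-- A sequence of rational functions with quickly growing degrees is linearly independent. -/
theorem indep_of_growth {K : Type} [Field K] (N : ℕ) (g : Fin N → RatFunc K)
    (h : ∀ k : Fin N, ∑ i ∈ Finset.univ.filter (· < k), deg (g i) < deg (g k)) :
    LinearIndependent K g := by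
  classical
  rw [Fintype.linearIndependent_iff]
  intro c hc
  by_contra hne
  push Not at hne
  have hS : (Finset.univ.filter fun i => c i ≠ 0).Nonempty := by
    obtain ⟨i, hi⟩ := hne
    exact ⟨i, Finset.mem_filter.2 ⟨Finset.mem_univ _, hi⟩⟩
  obtain ⟨k, hk, hmax⟩ := Finset.exists_max_image _ id hS
  rw [Finset.mem_filter] at hk
  have hzero : ∀ i, ¬ i < k → i ≠ k → c i = 0 := by
    intro i hi hik
    by_contra h0
    have := hmax i (Finset.mem_filter.2 ⟨Finset.mem_univ _, h0⟩)
    simp only [id] at this
    exact hi (lt_of_le_of_ne this hik)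
  have hsum : c k • g k = -∑ i ∈ Finset.univ.filter (· < k), c i • g i := by
    rw [eq_neg_iff_add_eq_zero, ← hc]
    have hnot : k ∉ Finset.univ.filter (· < k) := by simp
    rw [← Finset.sum_insert (f := fun i => c i • g i) hnot]
    refine Finset.sum_subset (Finset.subset_univ _) fun i _ hi => ?_
    rw [Finset.mem_insert, not_or, Finset.mem_filter] at hi
    rw [hzero i (fun h => hi.2 ⟨Finset.mem_univ _, h⟩) hi.1, zero_smul]
  have h1 : deg (g k) ≤ deg (c k • g k) := by
    have : g k = (c k)⁻¹ • (c k • g k) := by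
      rw [smul_smul, inv_mul_cancel₀ hk.2, one_smul]
    conv_lhs => rw [this]
    exact deg_smul _ _
  have h2 : deg (c k • g k) ≤ ∑ i ∈ Finset.univ.filter (· < k), deg (g i) := by
    rw [hsum, ← neg_one_smul K]
    refine (deg_smul _ _).trans ((deg_sum _ _).trans ?_)
    exact Finset.sum_le_sum fun i _ => deg_smul _ _
  have := h k
  omega

end Pool.Agent.MP_cd8379_lc
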