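import Pool.Agent.Lib.MP_cd8379_lc.Sym
import Pool.Agent.Lib.MP_cd8379_lc.Rat

/-!
The exceptional bases `x`: those which satisfy one of a small number of polynomial equations.
-/

namespace Pool.Agent.MP_cd8379_lc

open Polynomial

/-- The data of a window: program counter, number of inputs read, outcomes of the comparisons,
and `r + 5` times, decoders and rational functions. -/
abbrev Key (K : Type) [Field K] (r L w : ℕ) (Δ : Finset (Decoder r)) (Φ : Finset (RatFunc K)) :
    Type :=
  Fin (L + 1) × Fin 4 × (Fin w → Bool) × (Fin (r + 5) → Fin (w + 1)) × (Fin (r + 5) → Δ) ×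
    (Fin (r + 5) → Φ)

/-- Outcomes extended by `false`. -/
def ext {w : ℕ} (b : Fin w → Bool) (j : ℕ) : Bool := if h : j < w then b ⟨j, h⟩ else false

section

variable {K : Type} [Field K] {r w : ℕ} {Δ : Finset (Decoder r)} {Φ : Finset (RatFunc K)}

/-- The linear forms of a key. -/
def Key.forms (M : Machine r) (k : Key K r M.length w Δ Φ) (j : Fin (r + 5)) : Form K r :=
  Decoder.form (k.2.2.2.2.1 j).1
    (symRun M (ext k.2.2.1) (start k.1.1 k.2.1.1) (k.2.2.2.1 j).1).F

theorem exists_rel (M : Machine r) (k : Key K r M.length w Δ Φ) :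
    ∃ g : Fin (r + 5) → K, ∑ j, g j • k.forms M j = 0 ∧ ∃ j, g j ≠ 0 := by
  have h : ¬ LinearIndependent K (k.forms M) := by
    intro h
    have := h.fintype_card_le_finrank
    rw [Module.finrank_fintype_fun_eq_card] at this
    simp only [Fintype.card_fin, Fintype.card_sum] at this
    omega
  exact Fintype.not_linearIndependent_iff.1 h

/-- Coefficients of a linear relation. -/
noncomputable def Key.coef (M : Machine r) (k : Key K r M.length w Δ Φ) : Fin (r + 5) → K :=
  (exists_rel M k).choose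

/-- The functions of a key. -/
def Key.fn (M : Machine r) (k : Key K r M.length w Δ Φ) (j : Fin (r + 5)) : RatFunc K :=
  (k.2.2.2.2.2 j).1

/-- The polynomial of a key. -/
noncomputable def Key.poly (M : Machine r) (k : Key K r M.length w Δ Φ) : K[X] :=
  ∑ j, C (k.coef M j) * ((k.fn M j).num * ∏ i ∈ Finset.univ.erase j, (k.fn M i).denom)

theorem poly_ne_zero (M : Machine r) (k : Key K r M.length w Δ Φ)
    (hind : LinearIndependent K (k.fn M)) : k.poly M ≠ 0 := by
  classical
  obtain ⟨j, hj⟩ := (exists_rel M k).choose_spec.2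
  intro h
  have hmap : algebraMap K[X] (RatFunc K) (k.poly M) =
      (∏ i, algebraMap K[X] (RatFunc K) (k.fn M i).denom) * ∑ j, k.coef M j • k.fn M j := by
    unfold Key.poly
    rw [map_sum, Finset.mul_sum]
    refine Finset.sum_congr rfl fun j _ => ?_
    rw [map_mul, map_mul, map_prod, ← Finset.mul_prod_erase Finset.univ _ (Finset.mem_univ j)]
    have hd : algebraMap K[X] (RatFunc K) (k.fn M j).denom ≠ 0 :=
      RatFunc.algebraMap_ne_zero (RatFunc.denom_ne_zero _)
    have hf : algebraMap K[X] (RatFunc K) (k.fn M j).denom * k.fn M j =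
        algebraMap K[X] (RatFunc K) (k.fn M j).num := by
      have h1 := RatFunc.num_div_denom (k.fn M j)
      rw [div_eq_iff hd] at h1
      rw [h1, mul_comm]
    have hC : algebraMap K[X] (RatFunc K) (C (k.coef M j)) * k.fn M j =
        k.coef M j • k.fn M j := by
      rw [Algebra.smul_def]
      rfl
    rw [← hf, ← hC]
    ring
  rw [h, map_zero] at hmap
  have hprod : (∏ i, algebraMap K[X] (RatFunc K) (k.fn M i).denom) ≠ 0 :=
    Finset.prod_ne_zero_iff.2 fun i _ => RatFunc.algebraMap_ne_zero (RatFunc.denom_ne_zero _)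
  have hsum : ∑ j, k.coef M j • k.fn M j = 0 := by
    rcases mul_eq_zero.1 hmap.symm with h0 | h0
    · exact absurd h0 hprod
    · exact h0
  exact hj (Fintype.linearIndependent_iff.1 hind _ hsum j)

theorem poly_natDegree (M : Machine r) (k : Key K r M.length w Δ Φ) (D : ℕ)
    (hD : ∀ f ∈ Φ, deg f ≤ D) : (k.poly M).natDegree ≤ (r + 5) * D := by
  classical
  unfold Key.poly
  refine natDegree_sum_le_of_forall_le _ _ fun j _ => ?_
  refine (natDegree_C_mul_le _ _).trans ?_
  refine natDegree_mul_le.trans ?_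
  have h1 : (k.fn M j).num.natDegree ≤ D :=
    (le_max_left _ _).trans (hD _ (k.2.2.2.2.2 j).2)
  have h2 : (∏ i ∈ Finset.univ.erase j, (k.fn M i).denom).natDegree ≤ (r + 4) * D := by
    refine (natDegree_prod_le _ _).trans ?_
    refine (Finset.sum_le_card_nsmul _ _ D fun i _ => ?_).trans ?_
    · exact (le_max_right _ _).trans (hD _ (k.2.2.2.2.2 i).2)
    · rw [Finset.card_erase_of_mem (Finset.mem_univ j), Finset.card_univ, Fintype.card_fin,
        smul_eq_mul]
      exact le_rfl
  calc _ ≤ D + (r + 4) * D := Nat.add_le_add h1 h2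
    _ = (r + 5) * D := by ring

end

open Classical in
/-- The bad bases of a key. -/
noncomputable def Key.bad {r w : ℕ} {Δ : Finset (Decoder r)} (z : ℕ) [Fact z.Prime]
    {Φ : Finset (RatFunc (ZMod z))} (M : Machine r) (k : Key (ZMod z) r M.length w Δ Φ) :
    Finset ℕ :=
  (Finset.range z).filter fun x => k.poly M ≠ 0 ∧ (k.poly M).eval (x : ZMod z) = 0

theorem card_bad {r w : ℕ} {Δ : Finset (Decoder r)} (z : ℕ) [Fact z.Prime]
    {Φ : Finset (RatFunc (ZMod z))} (M : Machine r) (k : Key (ZMod z) r M.length w Δ Φ) (D : ℕ)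
    (hD : ∀ f ∈ Φ, deg f ≤ D) : (k.bad z M).card ≤ (r + 5) * D := by
  classical
  by_cases h : k.poly M = 0
  · have : k.bad z M = ∅ := by
      unfold Key.bad
      rw [Finset.filter_eq_empty_iff]
      intro x _ hx
      exact hx.1 h
    rw [this]
    simp
  · refine le_trans (Finset.card_le_card_of_injOn (fun x : ℕ => (x : ZMod z)) (t :=
      (k.poly M).roots.toFinset) ?_ ?_) ?_
    · intro x hx
      have hx' := Finset.mem_coe.1 hx
      unfold Key.bad at hx'
      rw [Finset.mem_filter] at hx'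
      rw [Finset.mem_coe, Multiset.mem_toFinset, mem_roots h]
      exact hx'.2.2
    · intro x hx x' hx' he
      have h1 := (Finset.mem_filter.1 (Finset.mem_coe.1 hx)).1
      have h2 := (Finset.mem_filter.1 (Finset.mem_coe.1 hx')).1
      rw [Finset.mem_range] at h1 h2
      have he' : (x : ZMod z) = (x' : ZMod z) := he
      rw [ZMod.natCast_eq_natCast_iff'] at he'
      rwa [Nat.mod_eq_of_lt h1, Nat.mod_eq_of_lt h2] at he'
    · refine (Multiset.toFinset_card_le _).trans ?_
      exact (card_roots' _).trans (poly_natDegree M k D hD)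

open Classical in
/-- All bad bases. -/
noncomputable def bad {r : ℕ} (w : ℕ) (Δ : Finset (Decoder r)) (z : ℕ) [Fact z.Prime]
    (Φ : Finset (RatFunc (ZMod z))) (M : Machine r) : Finset ℕ :=
  (Finset.univ : Finset (Key (ZMod z) r M.length w Δ Φ)).biUnion fun k => k.bad z M

theorem card_bad_le {r : ℕ} (w : ℕ) (Δ : Finset (Decoder r)) (z : ℕ) [Fact z.Prime]
    (Φ : Finset (RatFunc (ZMod z))) (M : Machine r) (D : ℕ) (hD : ∀ f ∈ Φ, deg f ≤ D) :
    (bad w Δ z Φ M).card ≤
      (M.length + 1) * (4 * (2 ^ w * ((w + 1) ^ (r + 5) * (Δ.card ^ (r + 5) *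
        Φ.card ^ (r + 5))))) * ((r + 5) * D) := by
  classical
  unfold bad
  refine Finset.card_biUnion_le.trans ?_
  refine (Finset.sum_le_card_nsmul _ _ _ fun k _ => card_bad z M k D hD).trans ?_
  rw [smul_eq_mul, Finset.card_univ]
  simp only [Key, Fintype.card_prod, Fintype.card_fin, Fintype.card_fun, Fintype.card_bool,
    Fintype.card_coe]
  exact le_rfl

theorem good_window {r : ℕ} (w : ℕ) (Δ : Finset (Decoder r)) (z : ℕ) [Fact z.Prime]
    (Φ : Finset (RatFunc (ZMod z))) (M : Machine r) (x : ℕ) (y : ℤ) (hx : x < z)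
    (hgood : x ∉ bad w Δ z Φ M) (t : ℕ) {ι : Type} (E : Finset ι) (F : ι → RatFunc (ZMod z))
    (hind : LinearIndependent (ZMod z) F)
    (hE : ∀ e ∈ E, F e ∈ Φ ∧
      ∃ s ≤ w, ShowsValue Δ (run M (x : ℤ) y z (t + s)).regs (x : ZMod z) (F e)) :
    E.card ≤ r + 4 := by
  classical
  by_contra hcard
  obtain ⟨E', hE'E, hE'⟩ := Finset.exists_subset_card_eq (show r + 5 ≤ E.card by omega)
  let e : Fin (r + 5) → ι := fun j => (E'.equivFin.symm (Fin.cast hE'.symm j)).1
  have heinj : Function.Injective e := by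
    intro a b hab
    have := E'.equivFin.symm.injective (Subtype.ext hab)
    exact Fin.cast_injective _ this
  have hfm : ∀ j, e j ∈ E := fun j => hE'E (E'.equivFin.symm (Fin.cast hE'.symm j)).2
  choose s hs hsv using fun j => (hE _ (hfm j)).2
  choose hden δ hδ hv using hsv
  obtain ⟨i, hi, hinp⟩ := inp_run M (x : ℤ) y z t
  let k : Key (ZMod z) r M.length w Δ Φ :=
    (⟨min (run M (x : ℤ) y z t).pc M.length, by omega⟩, ⟨i, by omega⟩,
      (fun j => outcome M (run M (x : ℤ) y z (t + j.1))),
      (fun j => ⟨s j, by have := hs j; omega⟩), (fun j => ⟨δ j, hδ j⟩),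
      (fun j => ⟨F (e j), (hE _ (hfm j)).1⟩))
  have hfn : ∀ j, k.fn M j = F (e j) := fun j => rfl
  have hind' : LinearIndependent (ZMod z) (k.fn M) := hind.comp e heinj
  apply hgood
  unfold bad
  rw [Finset.mem_biUnion]
  refine ⟨k, Finset.mem_univ _, ?_⟩
  unfold Key.bad
  rw [Finset.mem_filter]
  refine ⟨Finset.mem_range.2 hx, poly_ne_zero M k hind', ?_⟩
  set v : Ix r → ZMod z := vec (x : ℤ) y z (run M (x : ℤ) y z t) with hvdef
  have hform : ∀ j, (k.forms M j).ev v =
      (((δ j).value (run M (x : ℤ) y z (t + s j)).regs : ℤ) : ZMod z) := by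
    intro j
    have hrep := rep_window (K := ZMod z) M (x : ℤ) y z t i hi hinp (s j)
    rw [decoder_form v rfl _ _ hrep.reg (δ j)]
    unfold Key.forms
    rw [symRun_congr M (ext k.2.2.1) (fun j => outcome M (run M (x : ℤ) y z (t + j))) _ _ ?_]
    intro a ha
    have : a < w := lt_of_lt_of_le ha (hs j)
    unfold ext
    rw [dif_pos this]
  unfold Key.poly
  rw [eval_finsetSum]
  have hterm : ∀ j, eval (x : ZMod z) (C (k.coef M j) *
      ((k.fn M j).num * ∏ i ∈ Finset.univ.erase j, (k.fn M i).denom)) =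
      (k.coef M j * (k.forms M j).ev v) * ∏ i, (k.fn M i).denom.eval (x : ZMod z) := by
    intro j
    rw [eval_mul, eval_C, eval_mul, eval_prod, hfn j, ← hv j, hform j,
      ← Finset.mul_prod_erase Finset.univ _ (Finset.mem_univ j), hfn j]
    ring
  rw [Finset.sum_congr rfl fun j _ => hterm j, ← Finset.sum_mul]
  have hrel := (exists_rel M k).choose_spec.1
  have hz : ∑ j, k.coef M j * (k.forms M j).ev v = 0 := by
    have h1 := congrArg (fun f : Form (ZMod z) r => f.ev v) hrel
    rw [ev_sum, ev_zero] at h1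
    rw [← h1]
    refine Finset.sum_congr rfl fun j _ => ?_
    rw [ev_smul]
    rfl
  rw [hz, zero_mul]

end Pool.Agent.MP_cd8379_lc
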