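import Mathlib

/-!
Addition machines (Floyd and Knuth) and what their registers show.
-/

namespace Pool.Agent.MP_cd8379_lc

/-- The six comparison signs. -/
inductive Sign
  | lt
  | le
  | gt
  | ge
  | eq
  | ne

/-- The meaning of a comparison sign. -/
def Sign.Holds : Sign → ℤ → ℤ → Prop
  | .lt, a, b => a < b
  | .le, a, b => a ≤ b
  | .gt, a, b => a > b
  | .ge, a, b => a ≥ b
  | .eq, a, b => a = b
  | .ne, a, b => a ≠ b

/-- An operand of an instruction: one of the `r` registers or an integer constant. -/
inductive Operand (r : ℕ)
  | reg (i : Fin r)
  | const (c : ℤ)

/-- The value of an operand for the register contents `R`. -/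
def Operand.val {r : ℕ} (R : Fin r → ℤ) : Operand r → ℤ
  | .reg i => R i
  | .const c => c

/-- The instructions of an addition machine with `r` registers: `x := a + b`, `x := a - b`,
the conditional jump, the unconditional jump, reading one input integer into a register, writing
one integer to the output, and stopping. -/
inductive Instr (r : ℕ)
  | add (i : Fin r) (a b : Operand r)
  | sub (i : Fin r) (a b : Operand r)
  | branch (s : Sign) (a b : Operand r) (target : ℕ)
  | jump (target : ℕ)
  | read (i : Fin r)
  | write (a : Operand r)
  | halt

/-- A configuration: the number of the next instruction, the contents of the registers, the input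
integers not yet read, and the integers written so far (the last one first). -/
structure Config (r : ℕ) where
  pc : ℕ
  regs : Fin r → ℤ
  inp : List ℤ
  out : List ℤ

open Classical in
/-- The effect of one instruction (`halt` changes nothing; reading from the exhausted input gives
`0`). -/
noncomputable def exec {r : ℕ} : Instr r → Config r → Config r
  | .add i a b, c =>
      { c with pc := c.pc + 1, regs := Function.update c.regs i (a.val c.regs + b.val c.regs) }
  | .sub i a b, c =>
      { c with pc := c.pc + 1, regs := Function.update c.regs i (a.val c.regs - b.val c.regs) }
  | .branch s a b t, c =>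
      { c with pc := if s.Holds (a.val c.regs) (b.val c.regs) then t else c.pc + 1 }
  | .jump t, c => { c with pc := t }
  | .read i, c =>
      { c with pc := c.pc + 1, regs := Function.update c.regs i (c.inp.headD 0),
               inp := c.inp.tail }
  | .write a, c => { c with pc := c.pc + 1, out := a.val c.regs :: c.out }
  | .halt, c => c

/-- An addition machine with `r` registers is a list of instructions. -/
abbrev Machine (r : ℕ) := List (Instr r)

/-- One step. If no instruction has the number `pc`, the machine has stopped, and nothing
changes. -/
noncomputable def step {r : ℕ} (M : Machine r) (c : Config r) : Config r :=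
  match M[c.pc]? with
  | some I => exec I c
  | none => c

/-- The configuration after `t` steps on the input `x, y, z`. At the start, all registers hold
`0`. -/
noncomputable def run {r : ℕ} (M : Machine r) (x y z : ℤ) (t : ℕ) : Config r :=
  (step M)^[t] { pc := 0, regs := fun _ => 0, inp := [x, y, z], out := [] }

/-- A decoder: an integer combination of the registers plus an integer constant. -/
abbrev Decoder (r : ℕ) := (Fin r → ℤ) × ℤ

/-- The value which the decoder `δ` reads off the register contents `R`. -/
def Decoder.value {r : ℕ} (δ : Decoder r) (R : Fin r → ℤ) : ℤ :=
  (∑ i, δ.1 i * R i) + δ.2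

/-- The degree of a rational function: the larger one of the degrees of the numerator and of the
denominator in lowest terms. -/
noncomputable def deg {K : Type} [Field K] (f : RatFunc K) : ℕ :=
  max f.num.natDegree f.denom.natDegree

/-- The register contents `R` show the value `f(x)` of the rational function `f` modulo the prime
`z`: the denominator of `f` does not vanish at `x`, and for a decoder in `Δ` the value read off is
congruent to `f(x)` modulo `z`. -/
def ShowsValue {r : ℕ} {z : ℕ} [Fact z.Prime] (Δ : Finset (Decoder r)) (R : Fin r → ℤ)
    (x : ZMod z) (f : RatFunc (ZMod z)) : Prop :=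
  f.denom.eval x ≠ 0 ∧ ∃ δ ∈ Δ, ((δ.value R : ℤ) : ZMod z) * f.denom.eval x = f.num.eval x

/-- `f 0, ..., f l` is a computation of `X ^ y` with degree growth `2 ^ β`: the last member is
`X ^ y`, and the degree of each member is at most `2 ^ β` or at most `2 ^ β` times the degree of
an earlier member. (For `β = 1` this holds if each member is a constant, or `X`, or a sum,
difference, product or quotient of two earlier ones.) -/
def IsComputation {K : Type} [Field K] (β : ℕ) (y : ℕ) (f : ℕ → RatFunc K) (l : ℕ) : Prop :=
  f l = RatFunc.X ^ y ∧
    ∀ i ≤ l, deg (f i) ≤ 2 ^ β ∨ ∃ j < i, deg (f i) ≤ 2 ^ β * deg (f j)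

/-- Within the first `T` steps of the run on `x, y, z` (in any order) the registers show, through
the decoders in `Δ`, the values at `x` of all members of degree at most `D` of some computation
of `X ^ y` with degree growth `2 ^ β`, and these members belong to the set `Φ`. -/
def ShowsComputation {r : ℕ} {z : ℕ} [Fact z.Prime] (M : Machine r) (Δ : Finset (Decoder r))
    (Φ : Finset (RatFunc (ZMod z))) (β D x y T : ℕ) : Prop :=
  ∃ (f : ℕ → RatFunc (ZMod z)) (l : ℕ), IsComputation β y f l ∧
    ∀ i ≤ l, deg (f i) ≤ D → f i ∈ Φ ∧
      ∃ t ≤ T, ShowsValue Δ (run M x y z t).regs (x : ZMod z) (f i)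

end Pool.Agent.MP_cd8379_lc
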