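import Pool.Agent.Lib.MP_cd8379_lc.Bad

/-!
From windows to the whole run.
-/

namespace Pool.Agent.MP_cd8379_lc

/-- A computation of `X ^ y` has a member of degree between `τ` and `2 ^ β * τ`. -/
theorem level {K : Type} [Field K] (β y : ℕ) (f : ℕ → RatFunc K) (l : ℕ)
    (h : IsComputation β y f l) (τ : ℕ) (h1 : 1 ≤ τ) (hτ : τ < y) :
    ∃ i ≤ l, τ < deg (f i) ∧ deg (f i) ≤ 2 ^ β * τ := by
  classical
  obtain ⟨hl, hs⟩ := h
  have hex : ∃ i, i ≤ l ∧ τ < deg (f i) := by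
    refine ⟨l, le_rfl, ?_⟩
    rw [hl, deg_X_pow]
    exact hτ
  have hfind := Nat.find_spec hex
  set i := Nat.find hex with hi
  refine ⟨i, hfind.1, hfind.2, ?_⟩
  rcases hs i hfind.1 with h0 | ⟨j, hj, hd⟩
  · exact h0.trans (Nat.le_mul_of_pos_right _ h1)
  · refine hd.trans (Nat.mul_le_mul_left _ ?_)
    by_contra hb
    exact Nat.find_min hex (hi ▸ hj) ⟨by omega, by omega⟩

theorem geom_aux (β : ℕ) (k : ℕ) :
    ∑ i ∈ Finset.range k, 2 ^ ((β + 1) * i + β) < 2 ^ ((β + 1) * k) := by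
  induction k with
  | zero => simp
  | succ k ih =>
    rw [Finset.sum_range_succ]
    have e1 : 2 ^ ((β + 1) * (k + 1)) = 2 ^ ((β + 1) * k) * (2 * 2 ^ β) := by
      rw [mul_add, mul_one, pow_add, pow_succ]
      ring
    have e2 : 2 ^ ((β + 1) * k + β) = 2 ^ ((β + 1) * k) * 2 ^ β := pow_add _ _ _
    rw [e1, e2]
    have h1 : 1 ≤ 2 ^ β := Nat.one_le_two_pow
    nlinarith [Nat.zero_le (2 ^ ((β + 1) * k))]

/-- The independent members of a computation. -/
theorem exists_indep {K : Type} [Field K] (β y : ℕ) (f : ℕ → RatFunc K) (l : ℕ)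
    (h : IsComputation β y f l) (N : ℕ) (hN : ∀ k < N, 2 ^ ((β + 1) * k) < y) :
    ∃ i : Fin N → ℕ, (∀ k, i k ≤ l) ∧ (∀ k, deg (f (i k)) ≤ 2 ^ ((β + 1) * k.1 + β)) ∧
      LinearIndependent K (fun k => f (i k)) := by
  classical
  have hex : ∀ k : Fin N, ∃ i ≤ l, 2 ^ ((β + 1) * k.1) < deg (f i) ∧
      deg (f i) ≤ 2 ^ β * 2 ^ ((β + 1) * k.1) := fun k =>
    level β y f l h _ Nat.one_le_two_pow (hN k.1 k.2)
  choose i hi1 hi2 hi3 using hex
  have hi3' : ∀ k, deg (f (i k)) ≤ 2 ^ ((β + 1) * k.1 + β) := by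
    intro k
    rw [pow_add, mul_comm]
    exact hi3 k
  refine ⟨i, hi1, hi3', indep_of_growth N _ fun k => ?_⟩
  refine lt_of_le_of_lt ?_ (hi2 k)
  refine le_trans (Finset.sum_le_sum fun j _ => hi3' j) (le_trans ?_ (geom_aux β k.1).le)
  rw [← Finset.sum_image (s := Finset.univ.filter (· < k)) (g := Fin.val)
    (f := fun j : ℕ => 2 ^ ((β + 1) * j + β)) (fun a _ b _ hab => Fin.ext hab)]
  refine Finset.sum_le_sum_of_subset ?_
  intro j hj
  obtain ⟨a, ha, rfl⟩ := Finset.mem_image.1 hj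
  rw [Finset.mem_range]
  exact (Finset.mem_filter.1 ha).2

/-- A good base needs many windows. -/
theorem windows {r : ℕ} (w : ℕ) (Δ : Finset (Decoder r)) (z : ℕ) [Fact z.Prime]
    (Φ : Finset (RatFunc (ZMod z))) (M : Machine r) (x : ℕ) (y : ℤ) (hx : x < z)
    (hgood : x ∉ bad w Δ z Φ M) (T : ℕ) {ι : Type} (E : Finset ι) (F : ι → RatFunc (ZMod z))
    (hind : LinearIndependent (ZMod z) F)
    (hE : ∀ e ∈ E, F e ∈ Φ ∧
      ∃ t ≤ T, ShowsValue Δ (run M (x : ℤ) y z t).regs (x : ZMod z) (F e)) :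
    E.card ≤ (r + 4) * (T / (w + 1) + 1) := by
  classical
  have hch : ∀ e : ι, ∃ t, e ∈ E → t ≤ T ∧
      ShowsValue Δ (run M (x : ℤ) y z t).regs (x : ZMod z) (F e) := by
    intro e
    by_cases he : e ∈ E
    · obtain ⟨t, ht, h⟩ := (hE e he).2
      exact ⟨t, fun _ => ⟨ht, h⟩⟩
    · exact ⟨0, fun h => absurd h he⟩
  choose τ hτ using hch
  have h1 := Finset.card_le_mul_card_image (f := fun e => τ e / (w + 1)) E (r + 4) (by
    intro b _
    refine good_window w Δ z Φ M x y hx hgood (b * (w + 1)) _ F hind ?_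
    intro e he
    rw [Finset.mem_filter] at he
    obtain ⟨heE, heb⟩ := he
    refine ⟨(hE e heE).1, τ e - b * (w + 1), ?_, ?_⟩
    · have h2 := Nat.lt_div_mul_add (a := τ e) (b := w + 1) (by omega)
      rw [heb] at h2
      omega
    · have h3 : b * (w + 1) ≤ τ e := by
        rw [← heb]
        exact Nat.div_mul_le_self _ _
      rw [Nat.add_sub_of_le h3]
      exact (hτ e heE).2)
  refine h1.trans (Nat.mul_le_mul_left _ ?_)
  refine (Finset.card_le_card (t := Finset.range (T / (w + 1) + 1)) ?_).trans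
    (Finset.card_range _).le
  intro b hb
  obtain ⟨e, he, rfl⟩ := Finset.mem_image.1 hb
  rw [Finset.mem_range]
  have := Nat.div_le_div_right (c := w + 1) (hτ e he).1
  omega

theorem pow_aux (u : ℕ) (hu : 48 ≤ u) : 8 * u * (u + 1) ≤ 2 ^ u := by
  induction u, hu using Nat.le_induction with
  | base => norm_num
  | succ k hk ih =>
    rw [pow_succ]
    nlinarith

theorem size_bound (r m L d φ : ℕ) (hm : 512 * (r + 6) ^ 2 ≤ m)
    (hL : L ≤ 2 ^ (m / (64 * (r + 6)))) (hd : d ≤ 2 ^ (m / (64 * (r + 6))))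
    (hφ : φ ≤ 2 ^ (m / (32 * (r + 6)))) :
    (L + 1) * (4 * (2 ^ (m / 4) * ((m / 4 + 1) ^ (r + 5) * (d ^ (r + 5) *
        φ ^ (r + 5))))) * ((r + 5) * 2 ^ (m / (64 * (r + 6)))) ≤ 2 ^ (m / 2) := by
  have hpos : 0 < 64 * (r + 6) := by omega
  have hpos' : 0 < 32 * (r + 6) := by omega
  set u := m / (64 * (r + 6)) with hu
  set u' := m / (32 * (r + 6)) with hu'
  have hu1 : 8 * (r + 6) ≤ u := by
    rw [hu, Nat.le_div_iff_mul_le hpos]
    nlinarith
  have hu2 : u * (64 * (r + 6)) ≤ m := Nat.div_mul_le_self _ _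
  have hu2' : u' * (32 * (r + 6)) ≤ m := Nat.div_mul_le_self _ _
  have hu3 : m < 64 * (r + 6) * (u + 1) := by
    have := Nat.lt_div_mul_add (a := m) hpos
    rw [← hu] at this
    nlinarith
  have hw : m / 4 + 1 ≤ 2 ^ u := by
    have h1 := pow_aux u (by omega)
    have h2 : 64 * (r + 6) * (u + 1) ≤ 8 * u * (u + 1) := by nlinarith
    omega
  have e1 : L + 1 ≤ 2 ^ (u + 1) := by
    rw [pow_succ]
    have := Nat.one_le_two_pow (n := u)
    omega
  have e2 : r + 5 ≤ 2 ^ u := by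
    have : u < 2 ^ u := Nat.lt_two_pow_self
    omega
  calc (L + 1) * (4 * (2 ^ (m / 4) * ((m / 4 + 1) ^ (r + 5) * (d ^ (r + 5) *
        φ ^ (r + 5))))) * ((r + 5) * 2 ^ u)
      ≤ 2 ^ (u + 1) * (2 ^ 2 * (2 ^ (m / 4) * ((2 ^ u) ^ (r + 5) * ((2 ^ u) ^ (r + 5) *
        (2 ^ u') ^ (r + 5))))) * (2 ^ u * 2 ^ u) := by
        gcongr
        norm_num
    _ = 2 ^ (m / 4 + u * (2 * (r + 5) + 3) + u' * (r + 5) + 3) := by
        simp only [← pow_mul, ← pow_add]
        congr 1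
        ring
    _ ≤ 2 ^ (m / 2) := by
        refine Nat.pow_le_pow_right (by norm_num) ?_
        have h1 : 4 * (m / 4) ≤ m := Nat.mul_div_le m 4
        have h2 : u * (2 * (r + 5) + 3) ≤ 3 * (u * (r + 6)) := by nlinarith
        have h3 : 64 * (u * (r + 6)) ≤ m := by nlinarith
        have h4 : 256 * (r + 6) ≤ m := by nlinarith
        have h5 : 32 * (u' * (r + 5)) ≤ m := by nlinarith
        omega

/-- The main theorem. -/
theorem main (r β n m : ℕ) (hβ : 1 ≤ β) (hn : 1024 * (r + 6) ^ 2 * (β + 1) ≤ n) (hnm : n ≤ m)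
    (z : ℕ) [Fact z.Prime] (hzm : Nat.size z = m) (y : ℕ) (hy : Nat.size y = n) (M : Machine r)
    (hM : M.length ≤ 2 ^ (m / (64 * (r + 6)))) (Δ : Finset (Decoder r))
    (hΔ : Δ.card ≤ 2 ^ (m / (64 * (r + 6)))) (Φ : Finset (RatFunc (ZMod z)))
    (hΦ : Φ.card ≤ 2 ^ (m / (32 * (r + 6)))) :
    {x : ℕ | x < z ∧ ∃ T : ℕ, 1024 * (r + 6) ^ 2 * (β + 1) * T < n * m ∧
      ShowsComputation M Δ Φ β (2 ^ (m / (64 * (r + 6)))) x y T}.ncard ≤ 2 ^ (m / 2) := by
  classical
  set u := m / (64 * (r + 6)) with hu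
  set Φ' := Φ.filter fun f => deg f ≤ 2 ^ u with hΦ'
  have hpos : 0 < 64 * (r + 6) := by omega
  have hn0 : 1024 * 36 * (β + 1) ≤ n := by
    refine le_trans ?_ hn
    have : 36 ≤ (r + 6) ^ 2 := by nlinarith
    nlinarith
  have hsub : {x : ℕ | x < z ∧ ∃ T : ℕ, 1024 * (r + 6) ^ 2 * (β + 1) * T < n * m ∧
      ShowsComputation M Δ Φ β (2 ^ u) x y T} ⊆ ↑(bad (m / 4) Δ z Φ' M) := by
    rintro x ⟨hx, T, hT, f, l, hcomp, hshow⟩
    by_contra hgood
    have hgood' : x ∉ bad (m / 4) Δ z Φ' M := fun h => hgood (Finset.mem_coe.2 h)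
    have hy2 : 2 ^ (n - 1) ≤ y := by
      rw [← Nat.lt_size, hy]
      omega
    set N := min n (u + 1) / (β + 1) with hN
    have hN1 : (β + 1) * N ≤ min n (u + 1) := Nat.mul_div_le _ _
    obtain ⟨i, hi1, hi2, hi3⟩ := exists_indep β y f l hcomp N (by
      intro k hk
      refine lt_of_lt_of_le (Nat.pow_lt_pow_right (by norm_num) (n := n - 1) ?_) hy2
      have h1 : (β + 1) * (k + 1) ≤ (β + 1) * N := Nat.mul_le_mul_left _ hk
      have h2 : (β + 1) * N ≤ n := hN1.trans (min_le_left _ _)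
      rw [mul_add, mul_one] at h1
      omega)
    have hdeg : ∀ k, deg (f (i k)) ≤ 2 ^ u := by
      intro k
      refine (hi2 k).trans (Nat.pow_le_pow_right (by norm_num) ?_)
      have h1 : (β + 1) * (k.1 + 1) ≤ (β + 1) * N := Nat.mul_le_mul_left _ k.2
      have h2 : (β + 1) * N ≤ u + 1 := hN1.trans (min_le_right _ _)
      rw [mul_add, mul_one] at h1
      omega
    have hwin := windows (m / 4) Δ z Φ' M x y hx hgood' T (Finset.univ : Finset (Fin N))
      (fun k => f (i k)) hi3 (by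
        intro k _
        have := hshow (i k) (hi1 k) (hdeg k)
        exact ⟨Finset.mem_filter.2 ⟨this.1, hdeg k⟩, this.2⟩)
    rw [Finset.card_univ, Fintype.card_fin] at hwin
    have hu3 : m < 64 * (r + 6) * (u + 1) := by
      have := Nat.lt_div_mul_add (a := m) hpos
      rw [← hu] at this
      nlinarith
    have h1 : n ≤ 64 * (r + 6) * min n (u + 1) := by
      rcases le_total n (u + 1) with h | h
      · rw [min_eq_left h]
        nlinarith
      · rw [min_eq_right h]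
        omega
    have hmin : 2 * (β + 1) ≤ min n (u + 1) := by
      refine le_min (by omega) ?_
      have : 2 * (β + 1) ≤ u := by
        rw [hu, Nat.le_div_iff_mul_le hpos]
        refine le_trans ?_ (hn.trans hnm)
        have h128 : 128 * (r + 6) ≤ 1024 * (r + 6) ^ 2 := by nlinarith
        calc 2 * (β + 1) * (64 * (r + 6)) = 128 * (r + 6) * (β + 1) := by ring
          _ ≤ 1024 * (r + 6) ^ 2 * (β + 1) := Nat.mul_le_mul_right _ h128
      omega
    have hN2 : min n (u + 1) < (β + 1) * (N + 1) := by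
      have := Nat.lt_div_mul_add (a := min n (u + 1)) (b := β + 1) (by omega)
      rw [← hN] at this
      nlinarith
    have hN3 : min n (u + 1) ≤ 2 * ((β + 1) * N) := by
      rw [mul_add, mul_one] at hN2
      omega
    have h2 : n ≤ 128 * (r + 6) * (β + 1) * ((r + 4) * (T / (m / 4 + 1) + 1)) := by
      calc n ≤ 64 * (r + 6) * (2 * ((β + 1) * N)) := h1.trans (Nat.mul_le_mul_left _ hN3)
        _ = 128 * (r + 6) * (β + 1) * N := by ring
        _ ≤ _ := Nat.mul_le_mul_left _ hwin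
    have h3 : T / (m / 4 + 1) * (m / 4 + 1) ≤ T := Nat.div_mul_le_self _ _
    have h4 : m < 4 * (m / 4 + 1) := by omega
    set q := T / (m / 4 + 1) with hq
    set W := m / 4 + 1 with hW
    set A := (r + 6) * (r + 4) * (β + 1) with hA
    have hA2 : A ≤ (r + 6) ^ 2 * (β + 1) := by
      rw [hA]
      refine Nat.mul_le_mul_right _ ?_
      nlinarith
    have h5 : n * W ≤ 128 * A * (T + W) := by
      calc n * W ≤ 128 * (r + 6) * (β + 1) * ((r + 4) * (q + 1)) * W :=
            Nat.mul_le_mul_right _ h2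
        _ = 128 * A * (q * W + W) := by rw [hA]; ring
        _ ≤ _ := Nat.mul_le_mul_left _ (by omega)
    have h6 : 128 * A * W * 8 ≤ n * W := by
      have : 128 * A * 8 ≤ n := by
        refine le_trans ?_ hn
        calc 128 * A * 8 = 1024 * A := by ring
          _ ≤ 1024 * ((r + 6) ^ 2 * (β + 1)) := Nat.mul_le_mul_left _ hA2
          _ = 1024 * (r + 6) ^ 2 * (β + 1) := (mul_assoc _ _ _).symm
      calc 128 * A * W * 8 = 128 * A * 8 * W := by ring
        _ ≤ n * W := Nat.mul_le_mul_right _ this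
    have h7 : 7 * (n * W) ≤ 1024 * A * T := by nlinarith
    have h8 : n * m ≤ n * (4 * W) := Nat.mul_le_mul_left _ h4.le
    have h9 : 1024 * A * T ≤ 1024 * (r + 6) ^ 2 * (β + 1) * T := by
      refine Nat.mul_le_mul_right _ ?_
      rw [mul_assoc 1024]
      exact Nat.mul_le_mul_left _ hA2
    nlinarith
  refine (Set.ncard_le_ncard hsub (Finset.finite_toSet _)).trans ?_
  rw [Set.ncard_coe_finset]
  refine (card_bad_le _ _ _ _ _ (2 ^ u) fun f hf => (Finset.mem_filter.1 hf).2).trans ?_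
  refine size_bound r m M.length Δ.card Φ'.card ?_ hM hΔ
    ((Finset.card_filter_le _ _).trans hΦ)
  refine le_trans ?_ (hn.trans hnm)
  nlinarith [Nat.zero_le β, Nat.zero_le ((r + 6) ^ 2)]

end Pool.Agent.MP_cd8379_lc
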