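import Pool.Agent.Lib.MP_cd8379_lc.Rat

/-!
Straight-line computations over a field, and addition-subtraction chains, have degree growth `2`.
-/

namespace Pool.Agent.MP_cd8379_lc

open Polynomial

theorem deg_neg {K : Type} [Field K] (f : RatFunc K) : deg (-f) ≤ deg f := by
  rw [← neg_one_smul K]
  exact deg_smul _ _

theorem deg_sub {K : Type} [Field K] (f g : RatFunc K) : deg (f - g) ≤ deg f + deg g := by
  rw [sub_eq_add_neg]
  exact (deg_add _ _).trans (Nat.add_le_add_left (deg_neg g) _)

theorem deg_mul {K : Type} [Field K] (f g : RatFunc K) : deg (f * g) ≤ deg f + deg g := by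
  have hf := RatFunc.num_div_denom f
  have hg := RatFunc.num_div_denom g
  have hf0 := RatFunc.denom_ne_zero f
  have hg0 := RatFunc.denom_ne_zero g
  have e : f * g = algebraMap K[X] (RatFunc K) (f.num * g.num) /
      algebraMap K[X] (RatFunc K) (f.denom * g.denom) := by
    conv_lhs => rw [← hf, ← hg]
    rw [map_mul, map_mul, div_mul_div_comm]
  have h1 : f.num.natDegree ≤ deg f := le_max_left _ _
  have h2 : f.denom.natDegree ≤ deg f := le_max_right _ _
  have h3 : g.num.natDegree ≤ deg g := le_max_left _ _
  have h4 : g.denom.natDegree ≤ deg g := le_max_right _ _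
  rw [e]
  exact deg_div_le _ _ (mul_ne_zero hf0 hg0) _ (natDegree_mul_le.trans (by omega))
    (natDegree_mul_le.trans (by omega))

theorem deg_inv {K : Type} [Field K] (f : RatFunc K) : deg f⁻¹ ≤ deg f := by
  by_cases h : f = 0
  · rw [h, inv_zero]
  · have hf := RatFunc.num_div_denom f
    have e : f⁻¹ = algebraMap K[X] (RatFunc K) f.denom / algebraMap K[X] (RatFunc K) f.num := by
      conv_lhs => rw [← hf]
      rw [inv_div]
    rw [e]
    exact deg_div_le _ _ (RatFunc.num_ne_zero h) _ (le_max_right _ _) (le_max_left _ _)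

theorem deg_div {K : Type} [Field K] (f g : RatFunc K) : deg (f / g) ≤ deg f + deg g := by
  rw [div_eq_mul_inv]
  exact (deg_mul _ _).trans (Nat.add_le_add_left (deg_inv g) _)

theorem deg_C {K : Type} [Field K] (c : K) : deg (RatFunc.C c) = 0 := by
  unfold deg
  rw [RatFunc.num_C, RatFunc.denom_C, natDegree_C, natDegree_one]
  simp

theorem deg_X {K : Type} [Field K] : deg (RatFunc.X : RatFunc K) = 1 := by
  have := deg_X_pow (K := K) 1
  rwa [pow_one] at this

/-- A straight-line computation: constants, the variable, sums, differences, products and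
quotients of two earlier members. -/
def IsStraightLine {K : Type} [Field K] (f : ℕ → RatFunc K) (l : ℕ) : Prop :=
  ∀ i ≤ l, (∃ c, f i = RatFunc.C c) ∨ f i = RatFunc.X ∨ ∃ j < i, ∃ k < i,
    f i = f j + f k ∨ f i = f j - f k ∨ f i = f j * f k ∨ f i = f j / f k

theorem isComputation_of_straightLine {K : Type} [Field K] (y : ℕ) (f : ℕ → RatFunc K) (l : ℕ)
    (hl : f l = RatFunc.X ^ y) (h : IsStraightLine f l) : IsComputation 1 y f l := by
  refine ⟨hl, fun i hi => ?_⟩
  rcases h i hi with ⟨c, hc⟩ | hX | ⟨j, hj, k, hk, hop⟩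
  · left
    rw [hc, deg_C]
    norm_num
  · left
    rw [hX, deg_X]
    norm_num
  · right
    have hsum : deg (f i) ≤ deg (f j) + deg (f k) := by
      rcases hop with e | e | e | e <;> rw [e]
      · exact deg_add _ _
      · exact deg_sub _ _
      · exact deg_mul _ _
      · exact deg_div _ _
    rcases le_total (deg (f j)) (deg (f k)) with hle | hle
    · exact ⟨k, hk, by omega⟩
    · exact ⟨j, hj, by omega⟩

/-- `a 0, ..., a l` is an addition-subtraction chain for `y`. -/
def IsChain (y : ℤ) (a : ℕ → ℤ) (l : ℕ) : Prop :=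
  a 0 = 1 ∧ a l = y ∧
    ∀ i ≤ l, 0 < i → ∃ j < i, ∃ k < i, a i = a j + a k ∨ a i = a j - a k

theorem isComputation_of_chain {K : Type} [Field K] (y : ℕ) (a : ℕ → ℤ) (l : ℕ)
    (h : IsChain y a l) : IsComputation 1 y (fun i => (RatFunc.X : RatFunc K) ^ a i) l := by
  obtain ⟨h0, hl, hs⟩ := h
  refine isComputation_of_straightLine y _ l ?_ ?_
  · simp only [hl, zpow_natCast]
  · intro i hi
    rcases Nat.eq_zero_or_pos i with rfl | hpos
    · right
      left
      simp only [h0, zpow_one]
    · right
      right
      obtain ⟨j, hj, k, hk, e⟩ := hs i hi hpos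
      refine ⟨j, hj, k, hk, ?_⟩
      rcases e with e | e
      · right
        right
        left
        simp only [e]
        exact zpow_add₀ RatFunc.X_ne_zero _ _
      · right
        right
        right
        simp only [e]
        exact zpow_sub₀ RatFunc.X_ne_zero _ _

end Pool.Agent.MP_cd8379_lc
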