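import Pool.Agent.Lib.MP_cd8379_lc.Defs

/-!
Symbolic execution: along a fixed sequence of branch outcomes the registers are fixed linear
forms in the registers at the start, the inputs and `1`.
-/

namespace Pool.Agent.MP_cd8379_lc

/-- Index set of the linear forms: the registers, the three inputs and the constant. -/
abbrev Ix (r : ℕ) := Fin r ⊕ Fin 4

/-- Linear forms over `K`. -/
abbrev Form (K : Type) (r : ℕ) := Ix r → K

/-- Value of a linear form. -/
def Form.ev {K : Type} [CommRing K] {r : ℕ} (f : Form K r) (v : Ix r → K) : K := ∑ j, f j * v j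

/-- A unit form. -/
def unitForm {K : Type} [CommRing K] {r : ℕ} (j : Ix r) : Form K r := Pi.single j 1

theorem ev_unit {K : Type} [CommRing K] {r : ℕ} (j : Ix r) (v : Ix r → K) :
    (unitForm j : Form K r).ev v = v j := by
  classical
  unfold Form.ev unitForm
  rw [Finset.sum_eq_single j]
  · simp
  · intro b _ hb
    rw [Pi.single_eq_of_ne hb, zero_mul]
  · intro h
    exact absurd (Finset.mem_univ j) h

theorem ev_add {K : Type} [CommRing K] {r : ℕ} (f g : Form K r) (v : Ix r → K) :
    Form.ev (f + g) v = f.ev v + g.ev v := by
  unfold Form.ev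
  rw [← Finset.sum_add_distrib]
  refine Finset.sum_congr rfl fun j _ => ?_
  simp only [Pi.add_apply]
  ring

theorem ev_sub {K : Type} [CommRing K] {r : ℕ} (f g : Form K r) (v : Ix r → K) :
    Form.ev (f - g) v = f.ev v - g.ev v := by
  unfold Form.ev
  rw [← Finset.sum_sub_distrib]
  refine Finset.sum_congr rfl fun j _ => ?_
  simp only [Pi.sub_apply]
  ring

theorem ev_smul {K : Type} [CommRing K] {r : ℕ} (c : K) (f : Form K r) (v : Ix r → K) :
    Form.ev (c • f) v = c * f.ev v := by
  unfold Form.ev
  rw [Finset.mul_sum]
  refine Finset.sum_congr rfl fun j _ => ?_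
  simp only [Pi.smul_apply, smul_eq_mul]
  ring

theorem ev_zero {K : Type} [CommRing K] {r : ℕ} (v : Ix r → K) :
    Form.ev (0 : Form K r) v = 0 := by
  unfold Form.ev
  simp

theorem ev_sum {K : Type} [CommRing K] {r : ℕ} {ι : Type} (s : Finset ι) (f : ι → Form K r)
    (v : Ix r → K) : Form.ev (∑ i ∈ s, f i) v = ∑ i ∈ s, (f i).ev v := by
  classical
  induction s using Finset.induction_on with
  | empty => simp [ev_zero]
  | insert a s ha ih => rw [Finset.sum_insert ha, Finset.sum_insert ha, ev_add, ih]

/-- Symbolic state: program counter, number of inputs read (at most three), registers as forms. -/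
structure Sym (K : Type) (r : ℕ) where
  pc : ℕ
  ip : ℕ
  F : Fin r → Form K r

/-- An operand as a form. -/
def Operand.form {K : Type} [CommRing K] {r : ℕ} (F : Fin r → Form K r) : Operand r → Form K r
  | .reg i => F i
  | .const c => (c : K) • unitForm (Sum.inr 3)

/-- The input that is read, as a form. -/
def inputForm {K : Type} [CommRing K] {r : ℕ} (ip : ℕ) : Form K r :=
  if ip = 0 then unitForm (Sum.inr 0) else if ip = 1 then unitForm (Sum.inr 1) else
    if ip = 2 then unitForm (Sum.inr 2) else 0

/-- Symbolic effect of an instruction, `b` being the outcome of the comparison. -/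
def symExec {K : Type} [CommRing K] {r : ℕ} (b : Bool) : Instr r → Sym K r → Sym K r
  | .add i u v, s =>
      { s with pc := s.pc + 1, F := Function.update s.F i (u.form s.F + v.form s.F) }
  | .sub i u v, s =>
      { s with pc := s.pc + 1, F := Function.update s.F i (u.form s.F - v.form s.F) }
  | .branch _ _ _ t, s => { s with pc := if b then t else s.pc + 1 }
  | .jump t, s => { s with pc := t }
  | .read i, s =>
      { pc := s.pc + 1, F := Function.update s.F i (inputForm s.ip), ip := min (s.ip + 1) 3 }
  | .write _, s => { s with pc := s.pc + 1 }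
  | .halt, s => s

/-- Symbolic step. -/
def symStep {K : Type} [CommRing K] {r : ℕ} (M : Machine r) (b : Bool) (s : Sym K r) : Sym K r :=
  match M[s.pc]? with
  | some I => symExec b I s
  | none => s

/-- Symbolic run. -/
def symRun {K : Type} [CommRing K] {r : ℕ} (M : Machine r) (b : ℕ → Bool) (s : Sym K r) :
    ℕ → Sym K r
  | 0 => s
  | t + 1 => symStep M (b t) (symRun M b s t)

/-- The relation between a configuration and a symbolic state, for the vector `v`. -/
structure Rep {K : Type} [CommRing K] {r : ℕ} (M : Machine r) (x y z : ℤ) (v : Ix r → K)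
    (c : Config r) (s : Sym K r) : Prop where
  pc : min c.pc M.length = min s.pc M.length
  ip : c.inp = [x, y, z].drop s.ip
  ip3 : s.ip ≤ 3
  reg : ∀ i, ((c.regs i : ℤ) : K) = (s.F i).ev v

open Classical in
/-- The outcome of the comparison in a configuration. -/
noncomputable def outcome {r : ℕ} (M : Machine r) (c : Config r) : Bool :=
  match M[c.pc]? with
  | some (Instr.branch s a b _) => decide (s.Holds (a.val c.regs) (b.val c.regs))
  | _ => false

theorem form_val {K : Type} [CommRing K] {r : ℕ} (v : Ix r → K) (h1 : v (Sum.inr 3) = 1)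
    (R : Fin r → ℤ) (F : Fin r → Form K r) (h : ∀ i, ((R i : ℤ) : K) = (F i).ev v)
    (a : Operand r) : ((a.val R : ℤ) : K) = (a.form F).ev v := by
  cases a with
  | reg i => exact h i
  | const c =>
    unfold Operand.val Operand.form
    rw [ev_smul, ev_unit, h1, mul_one]

theorem rep_step {K : Type} [CommRing K] {r : ℕ} (M : Machine r) (x y z : ℤ) (v : Ix r → K)
    (h0 : v (Sum.inr 0) = (x : K)) (h1 : v (Sum.inr 1) = (y : K)) (h2 : v (Sum.inr 2) = (z : K))
    (h3 : v (Sum.inr 3) = 1) (c : Config r) (s : Sym K r) (h : Rep M x y z v c s) :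
    Rep M x y z v (step M c) (symStep M (outcome M c) s) := by
  classical
  obtain ⟨hpc, hip, hip3, hreg⟩ := h
  by_cases hlt : c.pc < M.length
  · have hpc' : c.pc = s.pc := by omega
    have hget : M[c.pc]? = some M[c.pc] := List.getElem?_eq_getElem hlt
    have hget' : M[s.pc]? = some M[c.pc] := by rw [← hpc']; exact hget
    unfold step symStep outcome
    rw [hget, hget']
    generalize M[c.pc] = I
    cases I with
    | add i a b =>
      refine ⟨by simp [exec, symExec, hpc'], hip, hip3, ?_⟩
      intro j
      simp only [exec, symExec]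
      by_cases hj : j = i
      · subst hj
        simp only [Function.update_self]
        rw [Int.cast_add, ev_add, form_val v h3 _ _ hreg, form_val v h3 _ _ hreg]
      · simp only [Function.update_of_ne hj]
        exact hreg j
    | sub i a b =>
      refine ⟨by simp [exec, symExec, hpc'], hip, hip3, ?_⟩
      intro j
      simp only [exec, symExec]
      by_cases hj : j = i
      · subst hj
        simp only [Function.update_self]
        rw [Int.cast_sub, ev_sub, form_val v h3 _ _ hreg, form_val v h3 _ _ hreg]
      · simp only [Function.update_of_ne hj]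
        exact hreg j
    | branch σ a b t =>
      refine ⟨?_, hip, hip3, hreg⟩
      simp only [exec, symExec, decide_eq_true_eq, hpc']
    | jump t => exact ⟨rfl, hip, hip3, hreg⟩
    | read i =>
      refine ⟨by simp [exec, symExec, hpc'], ?_, by simp [symExec], ?_⟩
      · simp only [exec, symExec]
        rw [hip, List.tail_drop]
        have : s.ip = 0 ∨ s.ip = 1 ∨ s.ip = 2 ∨ s.ip = 3 := by omega
        rcases this with h | h | h | h <;> rw [h] <;> rfl
      · intro j
        simp only [exec, symExec]
        by_cases hj : j = i
        · subst hj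
          simp only [Function.update_self]
          rw [hip]
          have : s.ip = 0 ∨ s.ip = 1 ∨ s.ip = 2 ∨ s.ip = 3 := by omega
          rcases this with h | h | h | h
          · rw [h, inputForm, if_pos rfl, ev_unit, h0]; rfl
          · rw [h, inputForm, if_neg (by norm_num), if_pos rfl, ev_unit, h1]; rfl
          · rw [h, inputForm, if_neg (by norm_num), if_neg (by norm_num), if_pos rfl, ev_unit,
              h2]
            rfl
          · rw [h, inputForm, if_neg (by norm_num), if_neg (by norm_num), if_neg (by norm_num),
              ev_zero]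
            simp
        · simp only [Function.update_of_ne hj]
          exact hreg j
    | write a => exact ⟨by simp [exec, symExec, hpc'], hip, hip3, hreg⟩
    | halt => exact ⟨by simp [exec, symExec, hpc'], hip, hip3, hreg⟩
  · have e1 : M[c.pc]? = none := List.getElem?_eq_none (by omega)
    have e2 : M[s.pc]? = none := List.getElem?_eq_none (by omega)
    unfold step symStep
    rw [e1, e2]
    exact ⟨hpc, hip, hip3, hreg⟩

/-- The state vector of a configuration. -/
def vec {K : Type} [CommRing K] {r : ℕ} (x y z : ℤ) (c : Config r) : Ix r → K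
  | Sum.inl i => (c.regs i : K)
  | Sum.inr j => if j = 0 then (x : K) else if j = 1 then (y : K) else if j = 2 then (z : K) else 1

/-- The symbolic state at the start of a window. -/
def start {K : Type} [CommRing K] {r : ℕ} (p i : ℕ) : Sym K r :=
  { pc := p, ip := i, F := fun j => unitForm (Sum.inl j) }

theorem run_succ {r : ℕ} (M : Machine r) (x y z : ℤ) (t : ℕ) :
    run M x y z (t + 1) = step M (run M x y z t) := by
  unfold run
  rw [Function.iterate_succ_apply']

/-- The unread input. -/
theorem inp_run {r : ℕ} (M : Machine r) (x y z : ℤ) (t : ℕ) :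
    ∃ i ≤ 3, (run M x y z t).inp = [x, y, z].drop i := by
  induction t with
  | zero => exact ⟨0, by norm_num, rfl⟩
  | succ t ih =>
    obtain ⟨i, hi, h⟩ := ih
    rw [run_succ]
    unfold step
    cases hM : M[(run M x y z t).pc]? with
    | none => exact ⟨i, hi, h⟩
    | some I =>
      cases I with
      | read j =>
        refine ⟨min (i + 1) 3, by omega, ?_⟩
        simp only [exec]
        rw [h, List.tail_drop]
        have : i = 0 ∨ i = 1 ∨ i = 2 ∨ i = 3 := by omega
        rcases this with h | h | h | h <;> rw [h] <;> rfl
      | add _ _ _ => exact ⟨i, hi, h⟩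
      | sub _ _ _ => exact ⟨i, hi, h⟩
      | branch _ _ _ _ => exact ⟨i, hi, h⟩
      | jump _ => exact ⟨i, hi, h⟩
      | write _ => exact ⟨i, hi, h⟩
      | halt => exact ⟨i, hi, h⟩

/-- Along a window, the run is represented by the symbolic run. -/
theorem rep_window {K : Type} [CommRing K] {r : ℕ} (M : Machine r) (x y z : ℤ) (t i : ℕ)
    (hi : i ≤ 3) (hinp : (run M x y z t).inp = [x, y, z].drop i) (s : ℕ) :
    Rep M x y z (vec x y z (run M x y z t) : Ix r → K) (run M x y z (t + s))
      (symRun M (fun j => outcome M (run M x y z (t + j)))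
        (start (min (run M x y z t).pc M.length) i) s) := by
  induction s with
  | zero =>
    refine ⟨?_, hinp, hi, ?_⟩
    · simp [symRun, start]
    · intro j
      simp only [symRun, start, Nat.add_zero]
      rw [ev_unit]
      rfl
  | succ s ih =>
    rw [← Nat.add_assoc, run_succ]
    exact rep_step M x y z _ rfl rfl rfl rfl _ _ ih

/-- Only the first outcomes matter. -/
theorem symRun_congr {K : Type} [CommRing K] {r : ℕ} (M : Machine r) (b b' : ℕ → Bool)
    (s : Sym K r) (t : ℕ) (h : ∀ j < t, b j = b' j) : symRun M b s t = symRun M b' s t := by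
  induction t with
  | zero => rfl
  | succ t ih =>
    simp only [symRun]
    rw [ih fun j hj => h j (by omega), h t (by omega)]

/-- The form of a decoder. -/
def Decoder.form {K : Type} [CommRing K] {r : ℕ} (δ : Decoder r) (F : Fin r → Form K r) :
    Form K r :=
  (∑ i, ((δ.1 i : ℤ) : K) • F i) + ((δ.2 : ℤ) : K) • unitForm (Sum.inr 3)

theorem decoder_form {K : Type} [CommRing K] {r : ℕ} (v : Ix r → K) (h1 : v (Sum.inr 3) = 1)
    (R : Fin r → ℤ) (F : Fin r → Form K r) (h : ∀ i, ((R i : ℤ) : K) = (F i).ev v)
    (δ : Decoder r) : ((δ.value R : ℤ) : K) = (δ.form F).ev v := by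
  unfold Decoder.value Decoder.form
  rw [ev_add, ev_smul, ev_unit, h1, mul_one, ev_sum, Int.cast_add, Int.cast_sum]
  congr 1
  refine Finset.sum_congr rfl fun i _ => ?_
  rw [ev_smul, Int.cast_mul, h i]

end Pool.Agent.MP_cd8379_lc
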